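import Pool.Agent.Y776.AxJ.Fun
import Pool.Agent.Y776.Cv.GenK

/-!
# The modular Schanuel conjecture with derivatives at the points of arbitrary analytic curves, together with exponentials

Let `τ_1, …, τ_p` be analytic functions on a connected open set `U` with values in the upper half-plane, none of them
constant, such that `j(τ_i)` and `j(τ_k)` are algebraically independent over `ℂ` for `i ≠ k` (so no `g τ_k`,
`g ∈ GL_2(ℚ)`, is equal to `τ_i`), and let `w_1, …, w_s` be analytic functions on `U` no nontrivial integral combination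
of which is constant. There is no other condition: none of the functions `τ_i`, `j(τ_i)`, `w_k`, `exp(w_k)` need be
algebraic, and the `w_k` have nothing to do with the `τ_i` (or are equal to `2πi τ_i`).

For `z ∈ U` the modular Schanuel conjecture with derivatives says that in general the field generated by `τ_i(z)`,
`j(τ_i(z))`, `j'(τ_i(z))`, `j''(τ_i(z))` has transcendence degree at least `3 p`; together with Schanuel's conjecture it is
expected that the field generated by these `4 p` numbers and the `2 s` numbers `w_k(z)`, `exp(w_k(z))` has transcendence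
degree at least `3 p + s` (in general).

We prove: `3 p + s` fixed functions among the `4 p + 2 s` have the following property. The chosen `3 p + s` numbers do
not satisfy any approximate relation of degree at most `d` in each variable and of height `T^A`, with the exception of
`C T^ε` points `z` of height at most `T` of a number field `F`, uniformly in all number fields of degree at most `m`; and
for `n` curves (equal or different) the `∑ (3 p_j + s_j)` numbers at the points `z_1, …, z_n` have no such relation with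
the exception of `C T^ε N^(n-1)` tuples, `N` the number of points. The coefficients of the relations are combinations of
arbitrary complex numbers `ξ_1, …, ξ_g`, for instance of the monomials of bounded degree in `2πi` and in the values of
`j'` at given special points `v_1, …, v_q`, which are the constants of the conjecture: in this sense the `3 p` numbers are
independent of the values at the special points.

In `MP_ede373_nt.AlgebraicPointsOrNomes` it is assumed that `p` of the functions `τ_i`, `j(τ_i)`, `j'(τ_i)`, `j''(τ_i)`,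
`exp(2πi τ_i)` are algebraic functions.

Proof: the Ax-Schanuel theorem for `j`, its derivatives and exponentials in one variable (`Pool.Agent.Y776.AxJ`) and the
counting theorem of `Pool.Agent.Y776.Cv`, `Pool.Agent.Y124`.
-/

set_option autoImplicit false

open NumberField
open scoped PeriodPair

namespace Pool.Agent.Results.MP_f58a57_nt.AnalyticFamilies

/-- The lattice `ℤ + ℤ τ`. -/
noncomputable def lattice (τ : ℂ) (h : 0 < τ.im) : PeriodPair where
  ω₁ := 1
  ω₂ := τ
  indep := (Y685.LL ⟨τ, h⟩).indep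

/-- The modular invariant `j = 1728 g₂³ / (g₂³ - 27 g₃²)` on the upper half-plane. -/
noncomputable def j (τ : ℂ) : ℂ :=
  if h : 0 < τ.im then 1728 * (lattice τ h).g₂ ^ 3 / ((lattice τ h).g₂ ^ 3 - 27 * (lattice τ h).g₃ ^ 2) else 0

/-- The names of the functions. -/
inductive Name (p s : ℕ) : Type
  | tau : Fin p → Name p s
  | j : Fin p → Name p s
  | dj : Fin p → Name p s
  | ddj : Fin p → Name p s
  | w : Fin s → Name p s
  | expw : Fin s → Name p s

/-- The values `τ_i(z)`, `j(τ_i(z))`, `j'(τ_i(z))`, `j''(τ_i(z))` (complex derivatives of `j`) and `w_k(z)`,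
`exp(w_k(z))`. -/
noncomputable def value {p s : ℕ} (τ : Fin p → ℂ → ℂ) (w : Fin s → ℂ → ℂ) (z : ℂ) : Name p s → ℂ
  | Name.tau i => τ i z
  | Name.j i => j (τ i z)
  | Name.dj i => deriv j (τ i z)
  | Name.ddj i => deriv (deriv j) (τ i z)
  | Name.w k => w k z
  | Name.expw k => Complex.exp (w k z)

/-- An analytic curve in `ℍ^p × ℂ^s`. -/
structure Family (U : Set ℂ) {p s : ℕ} (τ : Fin p → ℂ → ℂ) (w : Fin s → ℂ → ℂ) : Prop where
  pos : 0 < p
  isOpen : IsOpen U
  isPreconnected : IsPreconnected U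
  nonempty : U.Nonempty
  analytic : ∀ i, AnalyticOnNhd ℂ (τ i) U
  im_pos : ∀ i, ∀ z ∈ U, 0 < (τ i z).im
  nonconstant : ∀ i, ∀ c : ℂ, ∃ z ∈ U, τ i z ≠ c
  /-- two of the functions `j(τ_i)` are algebraically independent over `ℂ` -/
  independent : ∀ i k, i ≠ k → ∀ P : MvPolynomial (Fin 2) ℂ, P ≠ 0 →
    ∃ z ∈ U, MvPolynomial.eval ![j (τ i z), j (τ k z)] P ≠ 0
  analytic_w : ∀ k, AnalyticOnNhd ℂ (w k) U
  /-- no nontrivial combination with integral coefficients of the `w_k` is constant -/
  independent_w : ∀ (m : Fin s → ℤ) (c : ℂ), (∀ z ∈ U, ∑ k, (m k : ℂ) * w k z = c) → m = 0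

/-- The elements of the number field `F` with image in `K` which are quotients of two integers of `F` all of whose
conjugates have absolute value at most `T`. -/
def Points (F : Type) [Field F] [NumberField F] (ι : F →+* ℂ) (K : Set ℂ) (T : ℝ) : Set F :=
  {x | ι x ∈ K ∧ ∃ a b : 𝓞 F, b ≠ 0 ∧ (∀ φ : F →+* ℂ, ‖φ a‖ ≤ T ∧ ‖φ b‖ ≤ T) ∧ x = a / b}

/-- The `n`-tuples `x` of points of `F`, the `j`-th one in `K j`, for which there is a polynomial `P` of degree at most
`d` in each variable, with coefficients of the form `∑ ξ_i ι(c_i)`, where the `c_i` are integers of `F` all of whose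
conjugates have absolute value at most `T ^ A`, such that the value of `P` at the numbers `v j (ι (x j)) i` is at most
`T ^ (-B)` times the absolute value of some nonzero coefficient of `P`. -/
def Exceptional (n d : ℕ) {g : ℕ} {J : Fin n → Type} (v : ∀ j, ℂ → J j → ℂ) (F : Type) [Field F] [NumberField F]
    (ι : F →+* ℂ) (ξ : Fin g → ℂ) (K : Fin n → Set ℂ) (A B T : ℝ) : Set (Fin n → F) :=
  {x | (∀ j, x j ∈ Points F ι (K j) T) ∧ ∃ P : MvPolynomial (Σ j, J j) ℂ, (∀ y, P.degreeOf y ≤ d) ∧
    (∀ s, ∃ c : Fin g → 𝓞 F, (∀ i (φ : F →+* ℂ), ‖φ (c i)‖ ≤ T ^ A) ∧ P.coeff s = ∑ i, ξ i * ι (c i)) ∧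
    ∃ s₀, P.coeff s₀ ≠ 0 ∧
      ‖MvPolynomial.aeval (fun y : Σ j, J j => v y.1 (ι (x y.1)) y.2) P‖ ≤ T ^ (-B) * ‖P.coeff s₀‖}

theorem j_eq {τ : ℂ} (h : 0 < τ.im) : j τ = Y776.jf τ := by
  have h1 : Y685.LC τ = lattice τ h := by
    rw [Y685.LC, UpperHalfPlane.ofComplex_apply_of_im_pos h]
    rfl
  rw [j, dif_pos h, Y776.jf, h1]

theorem isOpen_H : IsOpen {τ : ℂ | 0 < τ.im} := isOpen_lt continuous_const Complex.continuous_im

theorem j_ev {τ : ℂ} (h : 0 < τ.im) : j =ᶠ[nhds τ] Y776.jf := by
  filter_upwards [isOpen_H.mem_nhds h] with σ hσ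
  exact j_eq hσ

theorem dj_eq {τ : ℂ} (h : 0 < τ.im) : deriv j τ = deriv Y776.jf τ := (j_ev h).deriv_eq

theorem dj_ev {τ : ℂ} (h : 0 < τ.im) : deriv j =ᶠ[nhds τ] deriv Y776.jf := by
  filter_upwards [isOpen_H.mem_nhds h] with σ hσ
  exact dj_eq hσ

theorem ddj_eq {τ : ℂ} (h : 0 < τ.im) : deriv (deriv j) τ = deriv (deriv Y776.jf) τ := (dj_ev h).deriv_eq

theorem fmj {U : Set ℂ} {p s : ℕ} {τ : Fin p → ℂ → ℂ} {w : Fin s → ℂ → ℂ} (h : Family U τ w) :
    Y776.AxJ.Fmj U τ w where
  op := h.isOpen
  conn := h.isPreconnected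
  ne := h.nonempty
  ta := h.analytic
  im := h.im_pos
  nc := h.nonconstant
  ji := by
    intro i k hik P hP
    by_contra hne
    obtain ⟨z, hz, hz0⟩ := h.independent i k hik P hne
    apply hz0
    rw [← hP z hz]
    congr 2
    funext m
    fin_cases m
    · exact j_eq (h.im_pos i z hz)
    · exact j_eq (h.im_pos k z hz)
  wa := h.analytic_w
  wi := h.independent_w

/-- the name of a function -/
def nm {p s : ℕ} : Y776.AxJ.Nj p s → Name p s := fun o => match o with
  | Sum.inl (i, 0) => Name.tau i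
  | Sum.inl (i, 1) => Name.j i
  | Sum.inl (i, 2) => Name.dj i
  | Sum.inl (i, 3) => Name.ddj i
  | Sum.inr (Sum.inl k) => Name.w k
  | Sum.inr (Sum.inr k) => Name.expw k

/-- the function with a given name -/
def mn {p s : ℕ} : Name p s → Y776.AxJ.Nj p s := fun o => match o with
  | Name.tau i => Sum.inl (i, 0)
  | Name.j i => Sum.inl (i, 1)
  | Name.dj i => Sum.inl (i, 2)
  | Name.ddj i => Sum.inl (i, 3)
  | Name.w k => Sum.inr (Sum.inl k)
  | Name.expw k => Sum.inr (Sum.inr k)

theorem nm_inj {p s : ℕ} : Function.Injective (nm (p := p) (s := s)) := by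
  have h : Function.LeftInverse (mn (p := p) (s := s)) nm := by
    rintro (⟨i, m⟩ | k | k)
    · fin_cases m <;> rfl
    · rfl
    · rfl
  exact h.injective

theorem value_eq {U : Set ℂ} {p s : ℕ} {τ : Fin p → ℂ → ℂ} {w : Fin s → ℂ → ℂ} (h : Family U τ w) {z : ℂ} (hz : z ∈ U)
    (o : Y776.AxJ.Nj p s) : value τ w z (nm o) = Y776.AxJ.yj τ w o z := by
  rcases o with ⟨i, m⟩ | k | k
  · fin_cases m
    · rfl
    · exact j_eq (h.im_pos i z hz)
    · exact dj_eq (h.im_pos i z hz)
    · exact ddj_eq (h.im_pos i z hz)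
  · rfl
  · rfl

/-- For `n` families (equal or different) one can choose, for each `j`, `3 p_j + s_j` different functions `e_j` among the
`4 p_j + 2 s_j` functions of the `j`-th family, such that for all compact sets `K_j` in `U_j`, and all `m`, `g`, `d`, `A`
and `ε > 0` there are `B`, `C`, `T₀` such that for every number field `F` of degree at most `m`, every embedding of `F` in
`ℂ`, all complex numbers `ξ_1, …, ξ_g` and all `T ≥ T₀` the number of `n`-tuples which are exceptional for the chosen
functions is at most `C T^ε N^(n - 1)`, where `N` is the number of points in the union of the `K_j`. -/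
theorem result {n : ℕ} {p s : Fin n → ℕ} (U : Fin n → Set ℂ) (τ : ∀ j, Fin (p j) → ℂ → ℂ) (w : ∀ j, Fin (s j) → ℂ → ℂ)
    (hU : ∀ j, Family (U j) (τ j) (w j)) :
    ∃ e : ∀ j, Fin (3 * p j + s j) → Name (p j) (s j), (∀ j, Function.Injective (e j)) ∧
      ∀ K : Fin n → Set ℂ, (∀ j, IsCompact (K j)) → (∀ j, K j ⊆ U j) → ∀ (m g d : ℕ) (A ε : ℝ), 0 < ε →
        ∃ B C T₀ : ℝ, ∀ (F : Type) [Field F] [NumberField F], Module.finrank ℚ F ≤ m → ∀ (ι : F →+* ℂ)
          (ξ : Fin g → ℂ) (T : ℝ), T₀ ≤ T →
          (Exceptional n d (fun j z k => value (τ j) (w j) z (e j k)) F ι ξ K A B T).Finite ∧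
            ((Exceptional n d (fun j z k => value (τ j) (w j) z (e j k)) F ι ξ K A B T).ncard : ℝ) ≤
              C * T ^ ε * ((Points F ι (⋃ j, K j) T).ncard : ℝ) ^ (n - 1) := by
  classical
  choose e he hL using fun j => Y776.AxJ.exists_loc (fmj (hU j)) (hU j).pos
  refine ⟨fun j k => nm (e j k), fun j => nm_inj.comp (he j), ?_⟩
  intro K hK hKU m g d A ε hε
  obtain ⟨B, C, T₀, hC, hT₀, H⟩ := Y776.Cv.nf_genSK (η := Fin g) m n d
    (fun j => (hU j).isOpen) (fun j => (hU j).isPreconnected)
    (y := fun j k => Y776.AxJ.yj (τ j) (w j) (e j k))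
    (fun j k => Y776.AxJ.yj_an (fmj (hU j)) (e j k)) (fun j => hL j) hK hKU (S := ⋃ j, K j)
    (fun j => Set.subset_iUnion K j) A ε hε
  refine ⟨B, C, T₀, fun F _ _ hm ι ξ T hT => ?_⟩
  have hT0 : 0 ≤ T := by linarith
  have hP : ∀ L : Set ℂ, Points F ι L T = {x : F | Y120.HtLe F T x ∧ ι x ∈ L} := by
    intro L
    ext x
    constructor
    · rintro ⟨h1, a, b, hb, hab, hx⟩
      exact ⟨⟨a, b, hb, Y120.house_le F hT0 fun φ => (hab φ).1, Y120.house_le F hT0 fun φ => (hab φ).2, hx⟩, h1⟩
    · rintro ⟨⟨a, b, hb, ha, hb', hx⟩, h1⟩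
      exact ⟨h1, a, b, hb, fun φ => ⟨(Y120.house_ge F _ φ).trans ha, (Y120.house_ge F _ φ).trans hb'⟩, hx⟩
  have key := H F hm ι ξ T hT
    (Exceptional n d (fun j z k => value (τ j) (w j) z (nm (e j k))) F ι ξ K A B T) (by
    rintro x ⟨hx, P, hPd, hPc, s₀, hs₀, hs⟩
    have hx' : ∀ j, Y120.HtLe F T (x j) ∧ ι (x j) ∈ K j := fun j => by
      have h1 := hx j
      rw [hP] at h1
      exact h1
    refine ⟨hx', P, hPd, hPc, s₀, hs₀, ?_⟩
    have hv : (fun y : Σ j, Fin (3 * p j + s j) => value (τ y.1) (w y.1) (ι (x y.1)) (nm (e y.1 y.2))) =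
        fun y : Σ j, Fin (3 * p j + s j) => Y776.AxJ.yj (τ y.1) (w y.1) (e y.1 y.2) (ι (x y.1)) := by
      funext y
      exact value_eq (hU y.1) (hKU y.1 (hx' y.1).2) _
    have hs' : ‖MvPolynomial.aeval (fun y : Σ j, Fin (3 * p j + s j) =>
      value (τ y.1) (w y.1) (ι (x y.1)) (nm (e y.1 y.2))) P‖ ≤ T ^ (-B) * ‖P.coeff s₀‖ := hs
    rw [hv] at hs'
    exact hs')
  rw [hP]
  exact key

end Pool.Agent.Results.MP_f58a57_nt.AnalyticFamilies
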