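import Pool.Agent.Q311.LN.J

/-!
# The modular Schanuel conjecture with derivatives at the points of analytic families of any dimension, with exponentials

Let `τ_1, …, τ_p`, `p > 0`, and `w_1, …, w_s` be analytic functions on a connected open set `U` of the affine space with
coordinates indexed by the finite set `X`, the `τ_i` with values in the upper half-plane. Genericity is required along one
line (near one of its points): no `τ_i` is constant along it, `j(τ_i)` and `j(τ_k)` are algebraically independent over `ℂ`
along it for `i ≠ k`, and no nontrivial integral combination of the `w_k` is constant along it. There is no other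
condition.

For `x ∈ U` the modular Schanuel conjecture with derivatives says that in general the field generated by `τ_i(x)`,
`j(τ_i(x))`, `j'(τ_i(x))`, `j''(τ_i(x))` has transcendence degree at least `3 p`; together with Schanuel's conjecture it is
expected that the field generated by these `4 p` numbers and the `2 s` numbers `w_k(x)`, `exp(w_k(x))` has transcendence
degree at least `3 p + s`.

(1) There are `3 p + s` fixed functions among the `4 p + 2 s` whose values are independent in bounded degree at almost
all points over all number fields: there are bounds `ω T → ∞` such that for all number fields `K` of degree at most `ω T`,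
at all points `x ∈ U` with coordinates in `K` of height at most `T` outside few hypersurfaces of small degree they do not
satisfy any nontrivial relation of degree at most `ω T` whose coefficients are combinations of arbitrary complex constants
`ξ` with integral coefficients of `K` of size at most `T ^ ω T`. The constants may be monomials in `2πi` and in the values
of `j'`, `j''` at special points.

(2) If `p + s` of the `4 p + 2 s` functions are algebraic, then this is true for all others. For instance, if all points
`τ_i` and all `w_k` are algebraic functions of several variables, then it is true for the numbers `j(τ_i(x))`,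
`j'(τ_i(x))`, `j''(τ_i(x))`, `exp(w_k(x))`; and if all points `τ_i` and all `exp(w_k)` are algebraic functions, for the
numbers `j(τ_i(x))`, `j'(τ_i(x))`, `j''(τ_i(x))`, `w_k(x)`.

In `MP_f58a57_nt.AnalyticFamilies` (for curves) there is only one variable and the degree of the fields is bounded.
-/

set_option autoImplicit false

open Pool.Agent.Q311.MV Pool.Agent.Q311.LN

namespace Pool.Agent.Results.MP_f58a57_nt.AnalyticVarieties

/-- The names of the functions. -/
inductive Name (p s : ℕ) : Type
  | tau : Fin p → Name p s
  | j : Fin p → Name p s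
  | dj : Fin p → Name p s
  | ddj : Fin p → Name p s
  | w : Fin s → Name p s
  | expw : Fin s → Name p s

/-- The values `τ_i(x)`, `j(τ_i(x))`, `j'(τ_i(x))`, `j''(τ_i(x))` (complex derivatives of `j`) and `w_k(x)`,
`exp(w_k(x))`. -/
noncomputable def value {X : Type} {p s : ℕ} (τ : Fin p → (X → ℂ) → ℂ) (w : Fin s → (X → ℂ) → ℂ) (x : X → ℂ) :
    Name p s → ℂ
  | Name.tau i => τ i x
  | Name.j i => j (τ i x)
  | Name.dj i => deriv j (τ i x)
  | Name.ddj i => deriv (deriv j) (τ i x)
  | Name.w k => w k x
  | Name.expw k => Complex.exp (w k x)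

/-- An analytic map `U → ℍ^p × ℂ^s`, generic along the line `a + t v` near the point with parameter `t₀`. -/
structure Family {X : Type} [Fintype X] (U : Set (X → ℂ)) {p s : ℕ} (τ : Fin p → (X → ℂ) → ℂ) (w : Fin s → (X → ℂ) → ℂ)
    (a v : X → ℂ) (t₀ : ℂ) (r : ℝ) : Prop where
  pos : 0 < p
  isPreconnected : IsPreconnected U
  analytic : ∀ i, AnalyticOnNhd ℂ (τ i) U
  im_pos : ∀ i, ∀ x ∈ U, 0 < (τ i x).im
  analytic_w : ∀ k, AnalyticOnNhd ℂ (w k) U
  r_pos : 0 < r
  mem : ∀ t ∈ Metric.ball t₀ r, pt a v t ∈ U
  nonconstant : ∀ i, ∀ c : ℂ, ∃ t ∈ Metric.ball t₀ r, τ i (pt a v t) ≠ c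
  /-- two of the functions `j(τ_i)` are algebraically independent over `ℂ` -/
  independent : ∀ i k, i ≠ k → ∀ P : MvPolynomial (Fin 2) ℂ, P ≠ 0 →
    ∃ t ∈ Metric.ball t₀ r, MvPolynomial.eval ![j (τ i (pt a v t)), j (τ k (pt a v t))] P ≠ 0
  /-- no nontrivial combination with integral coefficients of the `w_k` is constant -/
  independent_w : ∀ (m : Fin s → ℤ) (c : ℂ), (∀ t ∈ Metric.ball t₀ r, ∑ k, (m k : ℂ) * w k (pt a v t) = c) → m = 0

/-- the name of a function -/
def nm {p s : ℕ} : Y776.AxJ.Nj p s → Name p s := fun o => match o with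
  | Sum.inl (i, 0) => Name.tau i
  | Sum.inl (i, 1) => Name.j i
  | Sum.inl (i, 2) => Name.dj i
  | Sum.inl (i, 3) => Name.ddj i
  | Sum.inr (Sum.inl k) => Name.w k
  | Sum.inr (Sum.inr k) => Name.expw k

/-- the function with a given name -/
def mn {p s : ℕ} : Name p s → Y776.AxJ.Nj p s := fun o => match o with
  | Name.tau i => Sum.inl (i, 0)
  | Name.j i => Sum.inl (i, 1)
  | Name.dj i => Sum.inl (i, 2)
  | Name.ddj i => Sum.inl (i, 3)
  | Name.w k => Sum.inr (Sum.inl k)
  | Name.expw k => Sum.inr (Sum.inr k)

/-- the names and the functions of the library -/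
def eqv (p s : ℕ) : Y776.AxJ.Nj p s ≃ Name p s where
  toFun := nm
  invFun := mn
  left_inv := by
    rintro (⟨i, m⟩ | k | k)
    · fin_cases m <;> rfl
    · rfl
    · rfl
  right_inv := by
    rintro (i | i | i | i | i | i) <;> rfl

noncomputable instance (p s : ℕ) : Fintype (Name p s) := Fintype.ofEquiv _ (eqv p s)

noncomputable instance (p s : ℕ) : DecidableEq (Name p s) := Classical.decEq _

theorem card_name (p s : ℕ) : Fintype.card (Name p s) = 4 * p + 2 * s := by
  rw [← Fintype.card_congr (eqv p s), Fintype.card_sum, Fintype.card_sum, Fintype.card_prod, Fintype.card_fin,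
    Fintype.card_fin, Fintype.card_fin]
  ring

variable {X : Type} [Fintype X] [DecidableEq X] {U : Set (X → ℂ)} {p s : ℕ} {τ : Fin p → (X → ℂ) → ℂ}
  {w : Fin s → (X → ℂ) → ℂ} {a v : X → ℂ} {t₀ : ℂ} {r : ℝ}

omit [Fintype X] [DecidableEq X] in
theorem value_eq {t : ℂ} (h : ∀ i, 0 < (τ i (pt a v t)).im) (o : Y776.AxJ.Nj p s) :
    value τ w (pt a v t) (nm o) =
      Y776.AxJ.yj (fun i t => τ i (pt a v t)) (fun k t => w k (pt a v t)) o t := by
  rcases o with ⟨i, m⟩ | k | k
  · fin_cases m
    · rfl
    · exact j_eq (h i)
    · exact dj_eq (h i)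
    · exact ddj_eq (h i)
  · rfl
  · rfl

omit [DecidableEq X] in
theorem value_an (hU : IsOpen U) (h : Family U τ w a v t₀ r) (n : Name p s) :
    AnalyticOnNhd ℂ (fun x => value τ w x n) U := by
  rcases n with i | i | i | i | k | k
  · exact h.analytic i
  · exact (jet_an hU (h.analytic i) (h.im_pos i)).1
  · exact (jet_an hU (h.analytic i) (h.im_pos i)).2.1
  · exact (jet_an hU (h.analytic i) (h.im_pos i)).2.2
  · exact h.analytic_w k
  · exact fun x hx => (h.analytic_w k x hx).cexp

/-- independent functions -/
theorem indep (hU : IsOpen U) (h : Family U τ w a v t₀ r) :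
    ∃ e : Fin (3 * p + s) → Name p s, Function.Injective e ∧ IndepM U fun k x => value τ w x (e k) := by
  classical
  have him : ∀ i, ∀ t ∈ Metric.ball t₀ r, 0 < (τ i (pt a v t)).im := fun i t ht => h.im_pos i _ (h.mem t ht)
  have hta : ∀ i, AnalyticOnNhd ℂ (fun t => τ i (pt a v t)) (Metric.ball t₀ r) := fun i t ht =>
    AnalyticAt.fun_comp (g := τ i) (f := pt a v) (h.analytic i _ (h.mem t ht)) (pt_an a v t)
  have hwa : ∀ k, AnalyticOnNhd ℂ (fun t => w k (pt a v t)) (Metric.ball t₀ r) := fun k t ht =>
    AnalyticAt.fun_comp (g := w k) (f := pt a v) (h.analytic_w k _ (h.mem t ht)) (pt_an a v t)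
  have hF : Y776.AxJ.Fmj (Metric.ball t₀ r) (fun i t => τ i (pt a v t)) (fun k t => w k (pt a v t)) := by
    refine ⟨Metric.isOpen_ball, (convex_ball t₀ r).isPreconnected, ⟨t₀, Metric.mem_ball_self h.r_pos⟩, hta, him,
      h.nonconstant, ?_, hwa, h.independent_w⟩
    intro i k hik P hP
    by_contra hne
    obtain ⟨z, hz, hz0⟩ := h.independent i k hik P hne
    apply hz0
    rw [← hP z hz]
    congr 2
    funext m
    fin_cases m
    · exact j_eq (him i z hz)
    · exact j_eq (him k z hz)
  obtain ⟨e, he, hL⟩ := Y776.AxJ.exists_loc hF h.pos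
  refine ⟨fun k => nm (e k), fun k l hkl => he ((eqv p s).injective hkl), ?_⟩
  refine indep_of_line hU (fun i => value_an hU h _) (a := a) (v := v) (t0 := t₀)
    (h.mem t₀ (Metric.mem_ball_self h.r_pos)) ?_
  have h1 := hL t₀ (Metric.mem_ball_self h.r_pos)
  intro P hP
  apply h1
  filter_upwards [hP, Metric.isOpen_ball.mem_nhds (Metric.mem_ball_self h.r_pos)] with t ht htb
  rw [← ht]
  congr 2
  funext o
  rcases o with _ | k
  · rfl
  · exact (value_eq (fun i => him i t htb) (e k)).symm

/-- Let `U → ℍ^p × ℂ^s` be an analytic map on the connected open set `U ⊆ ℂ ^ X` which is generic along one line.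
(1) There are `3 p + s` different functions among the `4 p + 2 s` functions whose values at almost all points over all
number fields are independent.
(2) If `p + s` of the functions are algebraic, then the values of all others are independent in this sense. -/
theorem result {X : Type} [Fintype X] [DecidableEq X] [Nonempty X] (U : Set (X → ℂ)) (hU : IsOpen U) {p s : ℕ}
    (τ : Fin p → (X → ℂ) → ℂ) (w : Fin s → (X → ℂ) → ℂ) (a v : X → ℂ) (t₀ : ℂ) (r : ℝ) (h : Family U τ w a v t₀ r) :
    (∃ e : Fin (3 * p + s) → Name p s, Function.Injective e ∧ AlmostAllValues U fun k x => value τ w x (e k)) ∧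
    ∀ S : Finset (Name p s), S.card = p + s → (∀ n ∈ S, Algebraic U fun x => value τ w x n) →
      AlmostAllValues U fun (n : {n : Name p s // n ∉ S}) x => value τ w x n := by
  have hne : U.Nonempty := ⟨_, h.mem t₀ (Metric.mem_ball_self h.r_pos)⟩
  obtain ⟨e, he, hI⟩ := indep hU h
  refine ⟨⟨e, he, almostAll_of_indep h.isPreconnected hU hne (fun n => value_an hU h _) hI⟩, fun S hS hal => ?_⟩
  refine almostAll_of_indep h.isPreconnected hU hne (fun n => value_an hU h n.1) (indep_compl he hI hal ?_)
  rw [card_name, hS]
  ring

end Pool.Agent.Results.MP_f58a57_nt.AnalyticVarieties
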