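import Pool.Agent.Q192.MS.Tower
import Pool.Agent.Q192.MS.Cpx

/-!
# The modular Schanuel conjecture with derivatives and special points: points `i f (x)` for towers of functions of
arbitrary growth, with arbitrary constants

Let `f_(c,k)` (`c` the number of the block, `k` the number in the block) be functions which are analytic, real and
positive on `[a, ∞)`, such that the functions of a block are of comparable size and every nontrivial combination
`∑ m_k f_(c,k)` of the functions of a block with integral coefficients is, in absolute value, much larger than `log t` and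
all the functions of the earlier blocks. Examples: `s_k t ^ ρ_c`, `s_k exp (t ^ ρ_c)`, `s_k exp (exp t)`, with `s_k`
linearly independent over `ℚ`; blocks `{t, t + √t}`, `{t ^ t, 2 t ^ t + exp t}`; one function per block:
`(log t)^2`, `t`, `t log t`, `t ^ (log t)`, `exp t`, `Γ (t)`, `exp (t^2)`, ….

For an `n`-tuple `x` of elements of a number field `F`, with real images in `[a, b]`, we consider the numbers `log x_l`,
`x_l ^ σ_i` (`1, σ_1, …, σ_r` linearly independent over `ℚ`) and `exp (-2πi z)`, `j (z)`, `j' (z)`, `j'' (z)` at all points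
`z = i f_(c,k) (x_l)` of the upper half-plane. If some of the `f_(c,k)` are combinations of `log t` and the `t ^ σ_i`, the
field generated by the numbers contains the points `z` too. The conjecture says that the numbers `j (z)`, `j' (z)`,
`j'' (z)` add `3 m_1` to the transcendence degree, if there are `m_1` points, not special and inequivalent, and remain
independent of the values of `j'` at inequivalent special points.

We prove: apart from `C T^ε N^(n-1)` exceptional tuples, `N` the number of elements of `F` of height at most `T` with image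
in `[a, b]`, these numbers satisfy no relation (even an approximate one) of degree at most `d` in each variable whose
coefficients are combinations of arbitrary complex numbers `ξ_1, …, ξ_g` (for instance of the monomials of bounded degree
in `π` and in the values of `j'` at given special points) with integral elements of `F` of size at most `T^A` as
coefficients. The constants are uniform in the `ξ_i` and in the field `F` of degree at most `m`. The starting results of
this pool on such points concern one block (`MP_ede373_nt.ComparableGrowth`) or functions `s t ^ ρ` and iterated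
exponentials (`MP_47914d_nt`), with `π` as the only constant.
-/

set_option autoImplicit false

open Set Filter NumberField

namespace Pool.Agent.Results.MP_f58a57_nt.GrowthTowers

/-- the normalised Eisenstein series of weight `4` -/
noncomputable def E4 (τ : ℂ) : ℂ :=
  1 + 240 * ∑' m : ℕ, ((ArithmeticFunction.sigma 3 (m + 1) : ℕ) : ℂ) *
    Complex.exp (2 * (Real.pi : ℂ) * Complex.I * τ) ^ (m + 1)

/-- the normalised Eisenstein series of weight `6` -/
noncomputable def E6 (τ : ℂ) : ℂ :=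
  1 - 504 * ∑' m : ℕ, ((ArithmeticFunction.sigma 5 (m + 1) : ℕ) : ℂ) *
    Complex.exp (2 * (Real.pi : ℂ) * Complex.I * τ) ^ (m + 1)

/-- the modular invariant `j = q⁻¹ + 744 + 196884 q + ⋯` -/
noncomputable def j (τ : ℂ) : ℂ := 1728 * E4 τ ^ 3 / (E4 τ ^ 3 - E6 τ ^ 2)

/-- `exp (-2πi z), j (z), j' (z), j'' (z)` (complex derivatives) -/
noncomputable def jet (z : ℂ) : Fin 4 → ℂ :=
  ![Complex.exp (-(2 * (Real.pi : ℂ) * Complex.I * z)), j z, deriv j z, deriv (deriv j) z]

/-- `I` blocks of `p` functions: the functions are analytic, real and positive on `[a, ∞)`; in a block they are of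
comparable size; and every nontrivial integral combination of the functions of a block is much larger than `log t` and
the sum of all the functions of the earlier blocks. -/
structure Tower {I p : ℕ} (a : ℝ) (f : Fin I → Fin p → ℂ → ℂ) : Prop where
  analytic : ∀ c k, ∀ t : ℝ, a ≤ t → AnalyticAt ℂ (f c k) t
  real : ∀ c k, ∀ t : ℝ, a ≤ t → (f c k t).im = 0
  pos : ∀ c k, ∀ t : ℝ, a ≤ t → 0 < (f c k t).re
  comparable : ∃ K : ℝ, ∀ c k l, ∀ᶠ t : ℝ in atTop, (f c l t).re ≤ K * (f c k t).re
  growth : ∀ c, ∀ m : Fin p → ℤ, m ≠ 0 → Tendsto (fun t : ℝ => |∑ k, (m k : ℝ) * (f c k t).re| /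
    (Real.log t + ∑ c' ∈ Finset.Iio c, ∑ k, (f c' k t).re)) atTop atTop

/-- the numbers `log x`, `x ^ σ_i`, and `exp (-2πi z)`, `j (z)`, `j' (z)`, `j'' (z)` at `z = i f_(c,k) (x)` -/
noncomputable def numbers {r I p : ℕ} (σ : Fin r → ℝ) (f : Fin I → Fin p → ℂ → ℂ) (x : ℂ) :
    Option (Fin r) ⊕ (Fin I × (Fin p × Fin 4)) → ℂ
  | Sum.inl none => Complex.log x
  | Sum.inl (some i) => x ^ (σ i : ℂ)
  | Sum.inr (c, k, q) => jet (Complex.I * f c k x) q

/-- The elements of the number field `F` with image in the real interval `[a, b]` which are quotients of two integers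
of `F` all of whose conjugates have absolute value at most `T`. -/
def Points (F : Type) [Field F] [NumberField F] (ι : F →+* ℂ) (a b T : ℝ) : Set F :=
  {x | (∃ t : ℝ, a ≤ t ∧ t ≤ b ∧ (t : ℂ) = ι x) ∧
    ∃ u v : 𝓞 F, v ≠ 0 ∧ (∀ φ : F →+* ℂ, ‖φ u‖ ≤ T ∧ ‖φ v‖ ≤ T) ∧ x = u / v}

/-- The `n`-tuples `x` of points of `F` for which there is a polynomial `P` of degree at most `d` in each variable, with
coefficients of the form `∑ ξ_i ι(c_i)`, where the `c_i` are integers of `F` all of whose conjugates have absolute value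
at most `T ^ A`, such that the value of `P` at all the `numbers` of `x_1, …, x_n` is at most `T ^ (-B)` times the absolute
value of some nonzero coefficient of `P`. -/
def Exceptional {r I p : ℕ} (n d : ℕ) {g : ℕ} (σ : Fin r → ℝ) (f : Fin I → Fin p → ℂ → ℂ) (F : Type) [Field F]
    [NumberField F] (ι : F →+* ℂ) (ξ : Fin g → ℂ) (a b A B T : ℝ) : Set (Fin n → F) :=
  {x | (∀ l, x l ∈ Points F ι a b T) ∧
    ∃ P : MvPolynomial (Fin n × (Option (Fin r) ⊕ (Fin I × (Fin p × Fin 4)))) ℂ, (∀ y, P.degreeOf y ≤ d) ∧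
    (∀ s, ∃ c : Fin g → 𝓞 F, (∀ i (φ : F →+* ℂ), ‖φ (c i)‖ ≤ T ^ A) ∧ P.coeff s = ∑ i, ξ i * ι (c i)) ∧
    ∃ s₀, P.coeff s₀ ≠ 0 ∧
      ‖MvPolynomial.aeval (fun y => numbers σ f (ι (x y.1)) y.2) P‖ ≤ T ^ (-B) * ‖P.coeff s₀‖}

/-- the real functions of the tower, indexed by natural numbers -/
noncomputable def fr {I p : ℕ} (f : Fin I → Fin p → ℂ → ℂ) (c : ℕ) (k : Fin p) (t : ℝ) : ℝ :=
  if h : c < I then (f ⟨c, h⟩ k t).re else 0

theorem fr_val {I p : ℕ} (f : Fin I → Fin p → ℂ → ℂ) (c : Fin I) (k : Fin p) (t : ℝ) :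
    fr f c k t = (f c k t).re := by
  unfold fr
  rw [dif_pos c.2]

theorem fr_lt {I p : ℕ} (f : Fin I → Fin p → ℂ → ℂ) (c : ℕ) (hc : c < I) (k : Fin p) (t : ℝ) :
    fr f c k t = (f ⟨c, hc⟩ k t).re := fr_val f ⟨c, hc⟩ k t

theorem sum_range {I p : ℕ} (f : Fin I → Fin p → ℂ → ℂ) (c : Fin I) (t : ℝ) :
    ∑ i ∈ Finset.range c, ∑ k, fr f i k t = ∑ c' ∈ Finset.Iio c, ∑ k, (f c' k t).re := by
  have h1 : Finset.range (c : ℕ) = (Finset.Iio c).map Fin.valEmbedding := by
    rw [Fin.map_valEmbedding_Iio, Nat.Iio_eq_range]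
  rw [h1, Finset.sum_map]
  refine Finset.sum_congr rfl fun i _ => Finset.sum_congr rfl fun k _ => ?_
  exact fr_val f i k t

theorem hb_eq {r : ℕ} (σ : Fin r → ℝ) (t : ℝ) (ht : 1 ≤ t) :
    Pool.Agent.TH21.MS.hb σ t = (1 + ∑ k, |σ k|) * Real.log t := by
  unfold Pool.Agent.TH21.MS.hb
  have h0 : 0 ≤ Real.log t := Real.log_nonneg ht
  have h1 : ∀ k, |σ k * Real.log t| = |σ k| * Real.log t := fun k => by rw [abs_mul, abs_of_nonneg h0]
  simp only [h1]
  rw [abs_of_nonneg h0, ← Finset.sum_mul]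
  ring

open Pool.Agent.TH21.MS Pool.Agent.Q192.MS in
theorem LB_main {r I p : ℕ} {a : ℝ} (σ : Fin r → ℝ)
    (hσ : ∀ (c0 : ℤ) (c : Fin r → ℤ), (c0 : ℝ) + ∑ k, (c k : ℝ) * σ k = 0 → c0 = 0 ∧ c = 0)
    (f : Fin I → Fin p → ℂ → ℂ) (hf : Tower a f) :
    LB (Sum.elim (ub σ) (wt (fr f) I)) (Ht (hb σ) (fr f) I) := by
  obtain ⟨K, hK⟩ := hf.comparable
  have hposI : ∀ c < I, ∀ k, ∀ᶠ t in atTop, 0 < fr f c k t := by
    intro c hc k
    filter_upwards [eventually_ge_atTop a] with t ht
    rw [fr_lt f c hc]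
    exact hf.pos _ _ t ht
  refine (LB_tower (ub σ) (hb σ) (LB_ub σ hσ) (Eventually.of_forall fun t => hb_ge σ t) (ub_ub σ) (fr f) I
    hposI ?_ K ?_ ?_ I le_rfl).1
  · intro c hc k
    refine ⟨a, fun t ht => ?_⟩
    have h1 : ContinuousAt (fun t : ℝ => (f ⟨c, hc⟩ k t).re) t :=
      Complex.continuous_re.continuousAt.comp ((hf.analytic ⟨c, hc⟩ k t ht).continuousAt.comp
        Complex.continuous_ofReal.continuousAt)
    have h2 : fr f c k = fun t : ℝ => (f ⟨c, hc⟩ k t).re := funext fun t => fr_lt f c hc k t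
    rw [h2]
    exact h1.continuousWithinAt
  · intro c hc k l
    filter_upwards [hK ⟨c, hc⟩ k l] with t ht
    rw [fr_lt f c hc, fr_lt f c hc]
    exact ht
  · intro c hc m hm
    set M : ℝ := 1 + ∑ k, |σ k| with hM
    have hM1 : 1 ≤ M := by
      have : 0 ≤ ∑ k, |σ k| := Finset.sum_nonneg fun k _ => abs_nonneg _
      linarith
    have h3 := (hf.growth ⟨c, hc⟩ m hm).const_mul_atTop (show 0 < 1 / M by positivity)
    have hpos2 : ∀ᶠ t : ℝ in atTop, ∀ c' : Fin I, ∀ k, 0 < (f c' k t).re :=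
      eventually_all.2 fun c' => eventually_all.2 fun k => by
        filter_upwards [eventually_ge_atTop a] with t ht using hf.pos _ _ t ht
    refine tendsto_atTop_mono' _ ?_ h3
    filter_upwards [hpos2, eventually_gt_atTop (1 : ℝ)] with t ht ht1
    have hS : 0 ≤ ∑ c' ∈ Finset.Iio (⟨c, hc⟩ : Fin I), ∑ k, (f c' k t).re :=
      Finset.sum_nonneg fun c' _ => Finset.sum_nonneg fun k _ => (ht c' k).le
    have hlog : 0 < Real.log t := Real.log_pos ht1
    have h4 : Ht (hb σ) (fr f) c t = M * Real.log t + ∑ c' ∈ Finset.Iio (⟨c, hc⟩ : Fin I), ∑ k, (f c' k t).re := by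
      unfold Ht
      rw [hb_eq σ t ht1.le, ← sum_range f ⟨c, hc⟩ t]
    have h5 : ∑ k, (m k : ℝ) * fr f c k t = ∑ k, (m k : ℝ) * (f ⟨c, hc⟩ k t).re := by
      refine Finset.sum_congr rfl fun k _ => ?_
      rw [fr_lt f c hc]
    rw [h4, h5, one_div, ← div_eq_inv_mul, div_div]
    refine div_le_div_of_nonneg_left (abs_nonneg _) (by positivity) ?_
    nlinarith

/-- For every tower of functions on `[a, ∞)`, all `1, σ_1, …, σ_r` linearly independent over `ℚ` and all `m`, `n`, `d`, `g`,
`A`, `ε > 0` there are `B`, `C`, `T₀` such that for every number field `F` of degree at most `m`, every embedding of `F` in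
`ℂ`, all complex numbers `ξ_1, …, ξ_g` and all `T ≥ T₀` there are at most `C T^ε N^(n-1)` exceptional `n`-tuples, where `N`
is the number of points. -/
theorem result {r I p : ℕ} (n d m g : ℕ) (a b A ε : ℝ) (ha : 0 < a) (hε : 0 < ε) (σ : Fin r → ℝ)
    (hσ : ∀ (c₀ : ℤ) (c : Fin r → ℤ), (c₀ : ℝ) + ∑ k, (c k : ℝ) * σ k = 0 → c₀ = 0 ∧ c = 0)
    (f : Fin I → Fin p → ℂ → ℂ) (hf : Tower a f) :
    ∃ B C T₀ : ℝ, ∀ (F : Type) [Field F] [NumberField F], Module.finrank ℚ F ≤ m → ∀ (ι : F →+* ℂ)
      (ξ : Fin g → ℂ) (T : ℝ), T₀ ≤ T →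
      (Exceptional n d σ f F ι ξ a b A B T).Finite ∧
        ((Exceptional n d σ f F ι ξ a b A B T).ncard : ℝ) ≤
          C * T ^ ε * ((Points F ι a b T).ncard : ℝ) ^ (n - 1) := by
  classical
  have hLB := LB_main σ hσ f hf
  have han : ∀ q, ∀ t : ℝ, a ≤ t → AnalyticAt ℂ (fun x => numbers σ f x q) t := by
    intro q t ht
    have ht0 : 0 < t := ha.trans_le ht
    have hsl : (t : ℂ) ∈ Complex.slitPlane := by
      rw [Complex.mem_slitPlane_iff]
      left
      simpa using ht0
    rcases q with (_ | i) | ⟨c, k, q⟩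
    · exact analyticAt_clog hsl
    · have h1 : AnalyticAt ℂ (fun x : ℂ => x ^ (σ i : ℂ)) t := analyticAt_id.cpow analyticAt_const hsl
      exact h1
    · have hz : AnalyticAt ℂ (fun x => Complex.I * f c k x) t := analyticAt_const.mul (hf.analytic c k t ht)
      have him : 0 < (Complex.I * f c k t).im := by
        have h2 := hf.pos c k t ht
        simpa using h2
      have hj : AnalyticAt ℂ Pool.Agent.TH21.MS.jj (Complex.I * f c k t) := Pool.Agent.TH21.MS.jj_an _ him
      fin_cases q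
      · show AnalyticAt ℂ (fun x => Complex.exp (-(2 * (Real.pi : ℂ) * Complex.I * (Complex.I * f c k x)))) t
        exact (analyticAt_const.mul hz).neg.cexp
      · exact AnalyticAt.fun_comp (f := fun x => Complex.I * f c k x) (x := (t : ℂ)) hj hz
      · exact AnalyticAt.fun_comp (f := fun x => Complex.I * f c k x) (x := (t : ℂ)) hj.deriv hz
      · exact AnalyticAt.fun_comp (f := fun x => Complex.I * f c k x) (x := (t : ℂ)) hj.deriv.deriv hz
  have hU : ∀ q, ∀ t : ℝ, a ≤ t → numbers σ f t q = Complex.I ^ Pool.Agent.TH21.MS.sL q *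
      ((Sum.elim (Pool.Agent.TH21.MS.ub σ) (Pool.Agent.Q192.MS.wt (fr f) I) q t : ℝ) : ℂ) := by
    intro q t ht
    have ht0 : 0 < t := ha.trans_le ht
    rcases q with (_ | i) | ⟨c, k, q⟩
    · simp [numbers, Pool.Agent.TH21.MS.sL, Pool.Agent.TH21.MS.ub, Complex.ofReal_log ht0.le]
    · simp [numbers, Pool.Agent.TH21.MS.sL, Pool.Agent.TH21.MS.ub, Complex.ofReal_cpow ht0.le]
    · have h2 : f c k t = ((f c k t).re : ℂ) := by
        apply Complex.ext
        · simp
        · simpa using hf.real c k t ht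
      show Pool.Agent.TH21.MS.jet4 (Complex.I * f c k t) q = _
      rw [h2, Pool.Agent.TH21.MS.jet4_I _ (hf.pos c k t ht) q]
      simp only [Pool.Agent.TH21.MS.sL, Sum.elim_inr, Pool.Agent.Q192.MS.wt, fr_val]
  obtain ⟨B, C, T₀, hC, hT₀, H⟩ := Pool.Agent.Q192.MS.count (η := Fin g) m n d (fun q x => numbers σ f x q) _ _ _ a b
    han hU hLB A ε hε
  refine ⟨B, C, T₀, fun F _ _ hm ι ξ T hT => ?_⟩
  have hT0 : 0 ≤ T := by linarith
  have hP : Points F ι a b T = {x : F | Pool.Agent.Y120.HtLe F T x ∧ ι x ∈ Complex.ofReal '' Icc a b} := by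
    ext x
    constructor
    · rintro ⟨⟨t, h1, h2, h3⟩, u, v, hb, hab, hx⟩
      exact ⟨⟨u, v, hb, Pool.Agent.Y120.house_le F hT0 fun φ => (hab φ).1,
        Pool.Agent.Y120.house_le F hT0 fun φ => (hab φ).2, hx⟩, t, ⟨h1, h2⟩, h3⟩
    · rintro ⟨⟨u, v, hb, ha, hb', hx⟩, t, ⟨h1, h2⟩, h3⟩
      exact ⟨⟨t, h1, h2, h3⟩, u, v, hb, fun φ => ⟨(Pool.Agent.Y120.house_ge F _ φ).trans ha,
        (Pool.Agent.Y120.house_ge F _ φ).trans hb'⟩, hx⟩
  have key := H F hm ι ξ T hT (Exceptional n d σ f F ι ξ a b A B T) (by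
    rintro x ⟨hx, P, hPd, hPc, s₀, hs₀, hs⟩
    refine ⟨fun l => ?_, P, hPd, hPc, s₀, hs₀, hs⟩
    have h1 := hx l
    rw [hP] at h1
    exact h1)
  rw [hP]
  exact key

end Pool.Agent.Results.MP_f58a57_nt.GrowthTowers
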