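import Mathlib
import Pool.Agent.Q51.Sch.ModD

/-!
# The modular Schanuel conjecture with derivatives and special points as a statement on real numbers

Let `j` be the modular invariant. The conjecture says: for points `z₁, …, z_n` of the upper half plane with
`j' (z_i) ≠ 0`, pairwise inequivalent under the rational Möbius transformations, the transcendence degree
of `ℚ (z_i, j (z_i), j' (z_i), j'' (z_i))` is at least `3 m₁ + m₂`, where `m₂` is the number of the special (CM)
points among them and `m₁ = n - m₂`. We prove that it is equivalent to the following statement: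

for all points `x₁, …, x_r` and all points `w₁, …, w_s` of geodesics with rational equations, all of them with
`j' ≠ 0`, such that the `2 r + s` points `x_i`, `-x̄_i`, `w_k` are pairwise inequivalent, the transcendence degree of
the field generated by the *real* numbers `Re`, `Im` of `z, j (z), j' (z), j'' (z)`, `z` among `x_i`, `w_k`, is at least
`2 (3 a₁ + a₂) + (3 b₁ + b₂)`, where `a₂`, `b₂` are the numbers of special points among the `x_i` and the `w_k`
and `a₁ = r - a₂`, `b₁ = s - b₂`.

Moreover one may assume in addition that the `2 r + s` points represent the orbits of a given finite set of points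
with `j' ≠ 0`, which are special or for which the four numbers `z, j (z), j' (z), j'' (z)` are algebraically dependent.

Proof. Let the weight of an orbit be `3` or `1` and for a finite set `T` of orbits let `δ (T)` be the transcendence
degree of the numbers `z, j (z), j' (z), j'' (z)` for all points `z` with `j' (z) ≠ 0` of the orbits of `T`, minus the
weight of `T`. The transcendence degree is that of representatives: if `w = g z` and `V` is the Taylor series
of `j ∘ g` at `z`, then `V` is integral over `ℚ̄[J]`, `J` the Taylor series of `j` (modular equation), and so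
`J' · D (V) = D (J) · V'` for every derivation `D` of `ℂ`, applied to the coefficients; if `D` kills the first
three coefficients of `J`, it kills those of `V`. At a special point the same equation with `g z = z` shows that
`j (z)` and `j'' (z)` are algebraic over `ℚ (j' (z))`. So `δ` is submodular, it is not changed by the
reflection `z ↦ -z̄`, and it does not become larger when an orbit of one of the given points is
added. If `δ (T) < 0`, then `δ` is negative at the union or at the intersection of `T` and its
reflection, and these are symmetric. An orbit is symmetric exactly if its points lie on rational geodesics.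
-/

set_option autoImplicit false

open Set UpperHalfPlane ModularForm

namespace Pool.Agent.Results.MP_f58a57_nt.RealParts

/-- the modular invariant `j = E₄³ / Δ = q⁻¹ + 744 + 196884 q + ⋯` -/
noncomputable def j (z : ℍ) : ℂ := E₄ z ^ 3 / discriminant z

/-- `j` as a function of a complex variable (`J (t) = j (t)` for `Im t > 0`; the values elsewhere play no role) -/
noncomputable def J (t : ℂ) : ℂ := j (ofComplex t)

/-- the numbers `z, j (z), j' (z), j'' (z)` -/
noncomputable def numbers (z : ℍ) : Set ℂ := {(z : ℂ), j z, deriv J z, deriv (deriv J) z}

/-- `w = (a z + b) / (c z + d)` for a rational matrix with positive determinant -/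
def Equivalent (z w : ℍ) : Prop :=
  ∃ a b c d : ℚ, 0 < a * d - b * c ∧ (w : ℂ) * ((c : ℂ) * z + d) = (a : ℂ) * z + b

/-- special points: the roots of quadratic equations with integral coefficients -/
def Special (z : ℍ) : Prop :=
  ∃ a b c : ℤ, (a ≠ 0 ∨ b ≠ 0 ∨ c ≠ 0) ∧ (a : ℂ) * (z : ℂ) ^ 2 + b * z + c = 0

open Classical in
/-- `1` for a special point, `3` for the other points -/
noncomputable def weight (z : ℍ) : ℕ := if Special z then 1 else 3

/-- `w` lies on a geodesic with a rational equation `a |w|² + b Re w + c = 0` -/
def OnRationalGeodesic (w : ℍ) : Prop :=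
  ∃ a b c : ℤ, (a ≠ 0 ∨ b ≠ 0 ∨ c ≠ 0) ∧ (a : ℝ) * Complex.normSq (w : ℂ) + b * (w : ℂ).re + c = 0

/-- the reflection `z ↦ -z̄` -/
def reflection (z : ℍ) : ℍ := ⟨-(starRingEnd ℂ) (z : ℂ), by simpa using z.im_pos⟩

/-- the `2 r + s` points `x_i`, `-x̄_i`, `w_k` -/
def family {r s : ℕ} (x : Fin r → ℍ) (w : Fin s → ℍ) : Fin r ⊕ Fin r ⊕ Fin s → ℍ :=
  Sum.elim x (Sum.elim (fun i => reflection (x i)) w)

/-- the real and imaginary parts of the numbers `z, j (z), j' (z), j'' (z)` -/
noncomputable def realNumbers (z : ℍ) : Set ℝ := Complex.re '' numbers z ∪ Complex.im '' numbers z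

/-- `n` is at most the transcendence degree over `ℚ` of the field generated by the set `X` -/
def AtLeast (K : Type) [Field K] [Algebra ℚ K] (n : ℕ) (X : Set K) : Prop :=
  (n : Cardinal) ≤ Algebra.trdeg ℚ (IntermediateField.adjoin ℚ X)

/-- **The modular Schanuel conjecture with derivatives and special points is a statement on real numbers.**
Let `L` be any finite set of points `z` of the upper half plane with `j' (z) ≠ 0`, each of which is special or
such that `z, j (z), j' (z), j'' (z)` generate a field of transcendence degree at most three. The conjecture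
holds for all tuples if and only if for all points `x₁, …, x_r` and all points `w₁, …, w_s` of rational
geodesics, all with `j' ≠ 0`, such that the points `x_i`, `-x̄_i`, `w_k` are pairwise inequivalent and represent the
orbits of all points of `L`, the transcendence degree of the field generated by the real and
imaginary parts of the numbers `z, j (z), j' (z), j'' (z)`, `z` among `x_i`, `w_k`, is at least
`2 ∑ weight (x_i) + ∑ weight (w_k)`. -/
theorem result (L : Finset ℍ)
    (hL : ∀ z ∈ L, deriv J z ≠ 0 ∧ (Special z ∨ ¬ AtLeast ℂ 4 (numbers z))) :
    (∀ (n : ℕ) (z : Fin n → ℍ), (∀ i, deriv J (z i) ≠ 0) →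
      (∀ i k, i ≠ k → ¬ Equivalent (z i) (z k)) →
      AtLeast ℂ (∑ i, weight (z i)) (⋃ i, numbers (z i))) ↔
    (∀ (r s : ℕ) (x : Fin r → ℍ) (w : Fin s → ℍ), (∀ i, deriv J (x i) ≠ 0) →
      (∀ k, deriv J (w k) ≠ 0) → (∀ k, OnRationalGeodesic (w k)) →
      (∀ i k, i ≠ k → ¬ Equivalent (family x w i) (family x w k)) →
      (∀ z ∈ L, ∃ i, Equivalent z (family x w i)) →
      AtLeast ℝ (2 * ∑ i, weight (x i) + ∑ k, weight (w k))
        ((⋃ i, realNumbers (x i)) ∪ (⋃ k, realNumbers (w k)))) := by
  have h := Pool.Agent.Q51.Sch.Mod.main2 L (fun z hz =>
    ⟨(hL z hz).1, Pool.Agent.Q51.Sch.Mod.rk_wgt (hL z hz).1 (hL z hz).2⟩)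
  simp only [← Pool.Agent.Q51.Sch.atLeast_iff] at h
  exact h

end Pool.Agent.Results.MP_f58a57_nt.RealParts
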